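import Mathlib
import Pool.Agent.TH603.Chi.Main

/-!
# Positive functionals on almost periodic polynomials: elementary inequalities
-/

set_option autoImplicit false

open MeasureTheory Filter Topology
open scoped ComplexOrder ComplexConjugate

namespace Pool.Agent.TH175.Minimal

open Pool.Agent.TH603.Chi (ex HB norm_ex exists_phase)

theorem ex_add (t x y : ℝ) : ex t (x + y) = ex t x * ex t y := by
  unfold ex
  rw [← Complex.exp_add]
  congr 1
  push_cast
  ring

theorem ex_zero (t : ℝ) : ex t 0 = 1 := by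
  unfold ex
  simp

theorem ex_neg (t x : ℝ) : ex t (-x) = conj (ex t x) := by
  unfold ex
  rw [← Complex.exp_conj]
  congr 1
  simp

theorem ex_sub (t x y : ℝ) : ex t (x - y) = ex t x * conj (ex t y) := by
  rw [sub_eq_add_neg, ex_add, ex_neg]

/-- positivity of the functional `e_x ↦ g x` on the polynomials with exponents in `Ω` -/
def PosF (Ω : Set ℝ) (g : ℝ → ℂ) : Prop :=
  ∀ c ∈ Finsupp.supported ℂ ℂ Ω, (∀ t : ℝ, 0 ≤ Finsupp.linearCombination ℂ (ex t) c) →
    0 ≤ Finsupp.linearCombination ℂ g c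

theorem PosF.add {Ω : Set ℝ} {g h : ℝ → ℂ} (hg : PosF Ω g) (hh : PosF Ω h) :
    PosF Ω (fun x => g x + h x) := by
  intro c hc ht
  have e : Finsupp.linearCombination ℂ (fun x => g x + h x) c =
      Finsupp.linearCombination ℂ g c + Finsupp.linearCombination ℂ h c := by
    simp only [Finsupp.linearCombination_apply, Finsupp.sum, smul_eq_mul, mul_add,
      Finset.sum_add_distrib]
  rw [e]
  exact add_nonneg (hg c hc ht) (hh c hc ht)

theorem PosF.zero_nonneg {Ω : Set ℝ} {g : ℝ → ℂ} (hg : PosF Ω g) (h0 : (0 : ℝ) ∈ Ω) :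
    0 ≤ g 0 := by
  have h := hg (Finsupp.single 0 1) (Finsupp.single_mem_supported ℂ 1 h0) (by
    intro t
    rw [Finsupp.linearCombination_single, ex_zero]
    simp)
  rwa [Finsupp.linearCombination_single, one_smul] at h

/-- the value of the functional on the square `|b + ∑ α_i e_{z_i}|^2` is nonnegative -/
theorem PosF.sq {Ω : Set ℝ} {g : ℝ → ℂ} (hg : PosF Ω g) (h0 : (0 : ℝ) ∈ Ω)
    (s : Finset ℕ) (z : ℕ → ℝ) (α : ℕ → ℂ) (b : ℂ)
    (hz : ∀ i ∈ s, z i ∈ Ω) (hz' : ∀ i ∈ s, -z i ∈ Ω)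
    (hzz : ∀ i ∈ s, ∀ j ∈ s, z i - z j ∈ Ω) :
    0 ≤ b * conj b * g 0 + ∑ i ∈ s, α i * conj b * g (z i) + ∑ i ∈ s, b * conj (α i) * g (-z i)
      + ∑ i ∈ s, ∑ j ∈ s, α i * conj (α j) * g (z i - z j) := by
  have h := hg (Finsupp.single 0 (b * conj b) + ∑ i ∈ s, Finsupp.single (z i) (α i * conj b)
    + ∑ i ∈ s, Finsupp.single (-z i) (b * conj (α i))
    + ∑ i ∈ s, ∑ j ∈ s, Finsupp.single (z i - z j) (α i * conj (α j))) ?_ ?_
  · simpa only [map_add, map_sum, Finsupp.linearCombination_single, smul_eq_mul] using h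
  · refine Submodule.add_mem _ (Submodule.add_mem _ (Submodule.add_mem _ ?_ ?_) ?_) ?_
    · exact Finsupp.single_mem_supported ℂ _ h0
    · exact Submodule.sum_mem _ fun i hi => Finsupp.single_mem_supported ℂ _ (hz i hi)
    · exact Submodule.sum_mem _ fun i hi => Finsupp.single_mem_supported ℂ _ (hz' i hi)
    · exact Submodule.sum_mem _ fun i hi => Submodule.sum_mem _ fun j hj =>
        Finsupp.single_mem_supported ℂ _ (hzz i hi j hj)
  · intro t
    simp only [map_add, map_sum, Finsupp.linearCombination_single, smul_eq_mul]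
    have e : b * conj b * ex t 0 + ∑ i ∈ s, α i * conj b * ex t (z i)
        + ∑ i ∈ s, b * conj (α i) * ex t (-z i)
        + ∑ i ∈ s, ∑ j ∈ s, α i * conj (α j) * ex t (z i - z j)
        = (b + ∑ i ∈ s, α i * ex t (z i)) * conj (b + ∑ i ∈ s, α i * ex t (z i)) := by
      rw [map_add, map_sum, add_mul, mul_add, mul_add, Finset.sum_mul_sum, ex_zero, mul_one,
        Finset.sum_mul, Finset.mul_sum]
      simp only [map_mul, ex_neg, ex_sub]
      have e1 : ∀ i, α i * conj b * ex t (z i) = α i * ex t (z i) * conj b := fun i => by ring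
      have e2 : ∀ i, b * conj (α i) * conj (ex t (z i)) = b * (conj (α i) * conj (ex t (z i))) :=
        fun i => by ring
      have e3 : ∀ i j, α i * conj (α j) * (ex t (z i) * conj (ex t (z j))) =
        α i * ex t (z i) * (conj (α j) * conj (ex t (z j))) := fun i j => by ring
      simp only [e1, e2, e3]
      ring
    rw [e, Complex.mul_conj]
    exact_mod_cast Complex.normSq_nonneg _

theorem PosF.herm {Ω : Set ℝ} {g : ℝ → ℂ} (hg : PosF Ω g) (h0 : (0 : ℝ) ∈ Ω)
    (hΩ : ∀ x ∈ Ω, -x ∈ Ω) {x : ℝ} (hx : x ∈ Ω) : g (-x) = conj (g x) := by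
  have h1 := hg.sq h0 {0} (fun _ => x) (fun _ => 1) 1 (by simpa using hx)
    (by simpa using hΩ x hx) (by simpa using h0)
  have h2 := hg.sq h0 {0} (fun _ => x) (fun _ => Complex.I) 1 (by simpa using hx)
    (by simpa using hΩ x hx) (by simpa using h0)
  have h3 := hg.zero_nonneg h0
  simp only [Finset.sum_singleton, map_one, mul_one, one_mul, sub_self, Complex.conj_I,
    mul_neg, Complex.I_mul_I, neg_neg] at h1 h2
  rw [Complex.nonneg_iff] at h1 h2 h3
  apply Complex.ext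
  · have := h2.2
    simp at this
    rw [← h3.2] at this
    simp only [Complex.conj_re]
    linarith
  · have := h1.2
    simp at this
    rw [← h3.2] at this
    simp only [Complex.conj_im]
    linarith

theorem PosF.norm_le {Ω : Set ℝ} {g : ℝ → ℂ} (hg : PosF Ω g) (h0 : (0 : ℝ) ∈ Ω)
    (hΩ : ∀ x ∈ Ω, -x ∈ Ω) {x : ℝ} (hx : x ∈ Ω) : ‖g x‖ ≤ (g 0).re := by
  obtain ⟨θ, h1, h2⟩ := exists_phase (g x)
  have h3 := hg.sq h0 {0} (fun _ => x) (fun _ => -θ) 1 (by simpa using hx)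
    (by simpa using hΩ x hx) (by simpa using h0)
  simp only [Finset.sum_singleton, map_one, mul_one, one_mul, sub_self, map_neg, neg_mul,
    mul_neg, neg_neg] at h3
  rw [hg.herm h0 hΩ hx, ← map_mul, h2, Complex.conj_ofReal, Complex.mul_conj,
    Complex.normSq_eq_norm_sq, h1] at h3
  rw [Complex.nonneg_iff] at h3
  have := h3.1
  simp at this
  linarith

/-- The Cauchy-Schwarz inequality for the functional. -/
theorem PosF.key {Ω : Set ℝ} {g : ℝ → ℂ} (hg : PosF Ω g) (h0 : (0 : ℝ) ∈ Ω)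
    (hΩ : ∀ x ∈ Ω, -x ∈ Ω) (s : Finset ℕ) (z : ℕ → ℝ) (α : ℕ → ℝ)
    (hz : ∀ i ∈ s, z i ∈ Ω) (hzz : ∀ i ∈ s, ∀ j ∈ s, z i - z j ∈ Ω) :
    ‖∑ i ∈ s, (α i : ℂ) * g (z i)‖ ^ 2 ≤
      (g 0).re * (∑ i ∈ s, ∑ j ∈ s, (α i : ℂ) * (α j : ℂ) * g (z i - z j)).re := by
  set D := ∑ i ∈ s, (α i : ℂ) * g (z i) with hD
  set W := ∑ i ∈ s, ∑ j ∈ s, (α i : ℂ) * (α j : ℂ) * g (z i - z j) with hW
  have h3 := hg.zero_nonneg h0
  rw [Complex.nonneg_iff] at h3
  have hmain : ∀ τ : ℝ, 0 ≤ τ ^ 2 * ‖D‖ ^ 2 * (g 0).re - 2 * τ * ‖D‖ ^ 2 + W.re := by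
    intro τ
    have h := hg.sq h0 s z (fun i => (α i : ℂ)) (-(τ : ℂ) * D) hz (fun i hi => hΩ _ (hz i hi)) hzz
    have e1 : ∀ B : ℂ, ∑ i ∈ s, (α i : ℂ) * conj B * g (z i) = conj B * D := by
      intro B
      rw [hD, Finset.mul_sum]
      exact Finset.sum_congr rfl fun i _ => by ring
    have e2 : ∀ B : ℂ, ∑ i ∈ s, B * conj ((α i : ℂ)) * g (-z i) = B * conj D := by
      intro B
      rw [hD, map_sum, Finset.mul_sum]
      refine Finset.sum_congr rfl fun i hi => ?_
      rw [hg.herm h0 hΩ (hz i hi), map_mul]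
      ring
    have e3 : ∑ i ∈ s, ∑ j ∈ s, (α i : ℂ) * conj ((α j : ℂ)) * g (z i - z j) = W := by
      rw [hW]
      simp only [Complex.conj_ofReal]
    rw [e1, e2, e3] at h
    rw [Complex.nonneg_iff] at h
    have h4 := h.1
    have e4 : -(τ : ℂ) * D * conj (-(τ : ℂ) * D) = ((τ ^ 2 * ‖D‖ ^ 2 : ℝ) : ℂ) := by
      rw [map_mul, map_neg, Complex.conj_ofReal]
      have : -(τ : ℂ) * D * (-(τ : ℂ) * conj D) = (τ : ℂ) ^ 2 * (D * conj D) := by ring
      rw [this, Complex.mul_conj, Complex.normSq_eq_norm_sq]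
      push_cast; ring
    have e5 : conj (-(τ : ℂ) * D) * D = ((-(τ * ‖D‖ ^ 2) : ℝ) : ℂ) := by
      rw [map_mul, map_neg, Complex.conj_ofReal]
      have : -(τ : ℂ) * conj D * D = -((τ : ℂ) * (D * conj D)) := by ring
      rw [this, Complex.mul_conj, Complex.normSq_eq_norm_sq]
      push_cast; ring
    have e6 : -(τ : ℂ) * D * conj D = ((-(τ * ‖D‖ ^ 2) : ℝ) : ℂ) := by
      have : -(τ : ℂ) * D * conj D = -((τ : ℂ) * (D * conj D)) := by ring
      rw [this, Complex.mul_conj, Complex.normSq_eq_norm_sq]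
      push_cast; ring
    rw [e4, e5, e6] at h4
    simp only [Complex.add_re, Complex.mul_re, Complex.ofReal_re, Complex.ofReal_im, zero_mul,
      sub_zero] at h4
    linarith
  rcases eq_or_lt_of_le h3.1 with hq | hq
  · have hg0 : ∀ i ∈ s, g (z i) = 0 := by
      intro i hi
      have := hg.norm_le h0 hΩ (hz i hi)
      rw [← hq] at this
      exact norm_le_zero_iff.1 (by simpa using this)
    have hD0 : D = 0 := by
      rw [hD]
      exact Finset.sum_eq_zero fun i hi => by rw [hg0 i hi, mul_zero]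
    rw [hD0, ← hq]
    simp
  · have h := hmain (1 / (g 0).re)
    have e : (1 / (g 0).re) ^ 2 * ‖D‖ ^ 2 * (g 0).re - 2 * (1 / (g 0).re) * ‖D‖ ^ 2 =
        -(‖D‖ ^ 2 / (g 0).re) := by
      have : (g 0).re ≠ 0 := by
        have h6 : 0 < (g 0).re := by simpa using hq
        exact h6.ne'
      field_simp
      ring
    rw [e] at h
    have hq' : 0 < (g 0).re := by simpa using hq
    have h5 : ‖D‖ ^ 2 / (g 0).re ≤ W.re := by linarith
    rw [div_le_iff₀ hq'] at h5
    linarith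

end Pool.Agent.TH175.Minimal
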