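import Mathlib
import Pool.Agent.TH175.Minimal.Basic

/-!
# A positive functional whose χ-function has an essential limit at `0` is a.e. continuous
-/

set_option autoImplicit false

open MeasureTheory Filter Topology
open scoped ComplexOrder ComplexConjugate

namespace Pool.Agent.TH175.Minimal

open Pool.Agent.TH603.Chi (ex HB norm_ex exists_phase)

instance nhds_inf_ae_neBot (x : ℝ) : (𝓝 x ⊓ ae (volume : Measure ℝ)).NeBot := by
  rw [Filter.inf_neBot_iff]
  intro s hs s' hs'
  by_contra hne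
  rw [Set.not_nonempty_iff_eq_empty] at hne
  have h1 : s ⊆ s'ᶜ := by
    intro y hy hy'
    have : y ∈ s ∩ s' := ⟨hy, hy'⟩
    rw [hne] at this
    exact this
  have h2 : volume s'ᶜ = 0 := hs'
  have h3 : volume s = 0 := measure_mono_null h1 h2
  exact (Measure.measure_pos_of_mem_nhds volume hs).ne' h3

/-- choosing points from non-null sets with all differences outside a null set -/
theorem select {Z : Set ℝ} (hZ : volume Z = 0) (S : ℕ → Set ℝ) (hS : ∀ i, volume (S i) ≠ 0)
    (n : ℕ) : ∃ z : ℕ → ℝ, (∀ i < n, z i ∈ S i) ∧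
      ∀ i < n, ∀ j < n, i ≠ j → z i - z j ∉ Z := by
  induction n with
  | zero => exact ⟨fun _ => 0, by simp, by simp⟩
  | succ n ih =>
    obtain ⟨z, hz1, hz2⟩ := ih
    set B : Set ℝ := ⋃ i ∈ Finset.range n, ({w | w - z i ∈ Z} ∪ {w | z i - w ∈ Z}) with hB
    have hBnull : volume B = 0 := by
      rw [hB]
      refine measure_iUnion_null fun i => measure_iUnion_null fun _ => ?_
      rw [measure_union_null_iff]
      constructor
      · have : {w : ℝ | w - z i ∈ Z} = (fun w => w + -z i) ⁻¹' Z := by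
          ext w; simp [sub_eq_add_neg]
        rw [this, measure_preimage_add_right]
        exact hZ
      · have : {w : ℝ | z i - w ∈ Z} = (fun w => z i - w) ⁻¹' Z := rfl
        rw [this, (Measure.measurePreserving_sub_left volume (z i)).measure_preimage
          (NullMeasurableSet.of_null hZ)]
        exact hZ
    have hne : (S n \ B).Nonempty := by
      by_contra h
      rw [Set.not_nonempty_iff_eq_empty, Set.sdiff_eq_empty] at h
      exact hS n (measure_mono_null h hBnull)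
    obtain ⟨w, hw1, hw2⟩ := hne
    have hw3 : ∀ i < n, w - z i ∉ Z ∧ z i - w ∉ Z := by
      intro i hi
      constructor
      · intro h
        apply hw2
        rw [hB]
        simp only [Set.mem_iUnion]
        exact ⟨i, Finset.mem_range.2 hi, Or.inl h⟩
      · intro h
        apply hw2
        rw [hB]
        simp only [Set.mem_iUnion]
        exact ⟨i, Finset.mem_range.2 hi, Or.inr h⟩
    refine ⟨Function.update z n w, ?_, ?_⟩
    · intro i hi
      rcases Nat.lt_succ_iff_lt_or_eq.1 hi with h | h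
      · rw [Function.update_of_ne h.ne]
        exact hz1 i h
      · subst h
        rw [Function.update_self]
        exact hw1
    · intro i hi j hj hij
      rcases Nat.lt_succ_iff_lt_or_eq.1 hi with h | h
      · rcases Nat.lt_succ_iff_lt_or_eq.1 hj with h' | h'
        · rw [Function.update_of_ne h.ne, Function.update_of_ne h'.ne]
          exact hz2 i h j h' hij
        · subst h'
          rw [Function.update_of_ne h.ne, Function.update_self]
          exact (hw3 i h).2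
      · subst h
        rcases Nat.lt_succ_iff_lt_or_eq.1 hj with h' | h'
        · rw [Function.update_of_ne h'.ne, Function.update_self]
          exact (hw3 j h').1
        · exact absurd h'.symm hij

/-- essential limit at zero -/
def EssLim (Q : ℝ → ℂ) : Prop :=
  ∀ ε > 0, ∃ r > 0, ∃ c : ℂ, ∀ᵐ h : ℝ, |h| < r → ‖Q h - c‖ ≤ ε

/-- two cluster points along `𝓝 x₀ ⊓ ae` coincide -/
theorem cluster_unique {Ω : Set ℝ} {Q : ℝ → ℂ} (hg : PosF Ω Q) (hΩo : IsOpen Ω)
    (h0 : (0 : ℝ) ∈ Ω) (hΩ : ∀ x ∈ Ω, -x ∈ Ω) (hE : EssLim Q) {x₀ : ℝ} (hx₀ : x₀ ∈ Ω)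
    {a b : ℂ} (ha : ClusterPt a (map Q (𝓝 x₀ ⊓ ae (volume : Measure ℝ))))
    (hb : ClusterPt b (map Q (𝓝 x₀ ⊓ ae (volume : Measure ℝ)))) : a = b := by
  by_contra hab
  set η : ℝ := ‖a - b‖ with hη
  have hη0 : 0 < η := norm_pos_iff.2 (sub_ne_zero.2 hab)
  set q : ℝ := (Q 0).re with hq
  have hq0 : 0 ≤ q := by
    have := hg.zero_nonneg h0
    rw [Complex.nonneg_iff] at this
    exact this.1
  -- parameters
  set δ : ℝ := η ^ 2 / (64 * (q + 1)) with hδ
  have hδ0 : 0 < δ := by positivity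
  obtain ⟨r, hr0, c, hc⟩ := hE δ hδ0
  obtain ⟨M, hM⟩ := exists_nat_gt (64 * (q + 1) * (‖Q 0 - c‖ + 1) / η ^ 2)
  have hM0 : 0 < M := by
    rcases Nat.eq_zero_or_pos M with h | h
    · exfalso
      rw [h] at hM
      have : 0 ≤ 64 * (q + 1) * (‖Q 0 - c‖ + 1) / η ^ 2 := by positivity
      simp at hM
      linarith
    · exact h
  -- the null set
  set Z : Set ℝ := {h | ¬ (|h| < r → ‖Q h - c‖ ≤ δ)} with hZdef
  have hZ : volume Z = 0 := hc
  -- the neighbourhood
  obtain ⟨ρ, hρ0, hρ⟩ := Metric.isOpen_iff.1 hΩo x₀ hx₀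
  obtain ⟨ρ', hρ'0, hρ'⟩ := Metric.isOpen_iff.1 hΩo 0 h0
  set κ : ℝ := min ρ (min (ρ' / 2) (r / 2)) with hκ
  have hκ0 : 0 < κ := lt_min hρ0 (lt_min (by linarith) (by linarith))
  have hfreq : ∀ p : ℂ, ClusterPt p (map Q (𝓝 x₀ ⊓ ae (volume : Measure ℝ))) →
      volume {x | x ∈ Metric.ball x₀ κ ∧ ‖Q x - p‖ < η / 4} ≠ 0 := by
    intro p hp hnull
    rw [clusterPt_iff_forall_mem_closure] at hp
    have hmem : (Metric.ball p (η / 4))ᶜ ∈ map Q (𝓝 x₀ ⊓ ae (volume : Measure ℝ)) := by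
      rw [mem_map]
      have h1 : Metric.ball x₀ κ ∈ 𝓝 x₀ := Metric.ball_mem_nhds _ hκ0
      have h2 : {x | x ∈ Metric.ball x₀ κ ∧ ‖Q x - p‖ < η / 4}ᶜ ∈ ae (volume : Measure ℝ) := by
        rw [mem_ae_iff, compl_compl]
        exact hnull
      refine mem_of_superset (Filter.inter_mem_inf h1 h2) ?_
      rintro x ⟨hx1, hx2⟩
      simp only [Set.mem_preimage, Set.mem_compl_iff, Metric.mem_ball]
      intro h3
      apply hx2
      exact ⟨hx1, by rwa [dist_eq_norm] at h3⟩
    have h3 := hp _ hmem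
    rw [mem_closure_iff_nhds] at h3
    obtain ⟨y, hy1, hy2⟩ := h3 (Metric.ball p (η / 4)) (Metric.ball_mem_nhds _ (by linarith))
    exact hy2 hy1
  have hSa := hfreq a ha
  have hSb := hfreq b hb
  obtain ⟨z, hz1, hz2⟩ := select hZ (fun i => if i < M then
      {x | x ∈ Metric.ball x₀ κ ∧ ‖Q x - a‖ < η / 4} else
      {x | x ∈ Metric.ball x₀ κ ∧ ‖Q x - b‖ < η / 4}) (by
    intro i
    split_ifs
    · exact hSa
    · exact hSb) (2 * M)
  have hzball : ∀ i < 2 * M, z i ∈ Metric.ball x₀ κ := by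
    intro i hi
    have := hz1 i hi
    split_ifs at this with h
    · exact this.1
    · exact this.1
  have hzΩ : ∀ i ∈ Finset.range (2 * M), z i ∈ Ω := by
    intro i hi
    apply hρ
    have := hzball i (Finset.mem_range.1 hi)
    exact Metric.ball_subset_ball (min_le_left _ _) this
  have hdist : ∀ i < 2 * M, ∀ j < 2 * M, |z i - z j| < 2 * κ := by
    intro i hi j hj
    have h1 := hzball i hi
    have h2 := hzball j hj
    rw [Metric.mem_ball, Real.dist_eq] at h1 h2
    have : z i - z j = (z i - x₀) - (z j - x₀) := by ring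
    rw [this]
    refine (abs_sub _ _).trans_lt ?_
    linarith
  have hzzΩ : ∀ i ∈ Finset.range (2 * M), ∀ j ∈ Finset.range (2 * M), z i - z j ∈ Ω := by
    intro i hi j hj
    apply hρ'
    rw [Metric.mem_ball, Real.dist_eq, sub_zero]
    have h1 := hdist i (Finset.mem_range.1 hi) j (Finset.mem_range.1 hj)
    have h2 : κ ≤ ρ' / 2 := (min_le_right _ _).trans (min_le_left _ _)
    linarith
  set α : ℕ → ℝ := fun i => if i < M then 1 / M else -(1 / M) with hα
  have hkey := hg.key h0 hΩ (Finset.range (2 * M)) z α hzΩ hzzΩ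
  have hMR : (0 : ℝ) < M := by exact_mod_cast hM0
  have hαabs : ∀ i, |α i| = 1 / M := by
    intro i
    simp only [hα]
    split_ifs
    · exact abs_of_pos (by positivity)
    · rw [abs_neg]; exact abs_of_pos (by positivity)
  have hαsum : ∑ i ∈ Finset.range (2 * M), α i = 0 := by
    rw [two_mul, Finset.sum_range_add]
    have e1 : ∑ i ∈ Finset.range M, α i = ∑ i ∈ Finset.range M, (1 / M : ℝ) :=
      Finset.sum_congr rfl fun i hi => by simp only [hα]; rw [if_pos (Finset.mem_range.1 hi)]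
    have e2 : ∑ i ∈ Finset.range M, α (M + i) = ∑ i ∈ Finset.range M, (-(1 / M) : ℝ) :=
      Finset.sum_congr rfl fun i _ => by simp only [hα]; rw [if_neg (by omega)]
    rw [e1, e2]
    simp
  have hαabssum : ∑ i ∈ Finset.range (2 * M), |α i| = 2 := by
    simp only [hαabs]
    rw [Finset.sum_const, Finset.card_range, nsmul_eq_mul]
    push_cast
    field_simp
  -- estimate of the quadratic form
  set W := ∑ i ∈ Finset.range (2 * M), ∑ j ∈ Finset.range (2 * M),
    (α i : ℂ) * (α j : ℂ) * Q (z i - z j) with hW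
  have hWc : W = ∑ i ∈ Finset.range (2 * M), ∑ j ∈ Finset.range (2 * M),
      (α i : ℂ) * (α j : ℂ) * (Q (z i - z j) - c) := by
    have e : ∑ i ∈ Finset.range (2 * M), ∑ j ∈ Finset.range (2 * M),
        (α i : ℂ) * (α j : ℂ) * c = 0 := by
      have : ∀ i ∈ Finset.range (2 * M), ∑ j ∈ Finset.range (2 * M), (α i : ℂ) * (α j : ℂ) * c
          = 0 := by
        intro i _
        rw [← Finset.sum_mul, ← Finset.mul_sum]
        have : ∑ j ∈ Finset.range (2 * M), (α j : ℂ) = 0 := by exact_mod_cast hαsum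
        rw [this]; simp
      exact Finset.sum_eq_zero this
    rw [hW, ← sub_zero (∑ i ∈ Finset.range (2 * M), ∑ j ∈ Finset.range (2 * M),
      (α i : ℂ) * (α j : ℂ) * Q (z i - z j)), ← e, ← Finset.sum_sub_distrib]
    refine Finset.sum_congr rfl fun i _ => ?_
    rw [← Finset.sum_sub_distrib]
    exact Finset.sum_congr rfl fun j _ => by ring
  have hWn : ‖W‖ ≤ 4 * δ + 2 / M * ‖Q 0 - c‖ := by
    rw [hWc]
    have h1 : ∀ i ∈ Finset.range (2 * M), ‖∑ j ∈ Finset.range (2 * M),
        (α i : ℂ) * (α j : ℂ) * (Q (z i - z j) - c)‖ ≤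
        |α i| * (2 * δ) + (1 / M) * ((1 / M) * ‖Q 0 - c‖) := by
      intro i hi
      refine (norm_sum_le _ _).trans ?_
      have h2 : ∀ j ∈ Finset.range (2 * M), ‖(α i : ℂ) * (α j : ℂ) * (Q (z i - z j) - c)‖ ≤
          |α i| * (|α j| * δ) + if j = i then (1 / M) * ((1 / M) * ‖Q 0 - c‖) else 0 := by
        intro j hj
        rw [norm_mul, norm_mul, Complex.norm_real, Complex.norm_real, Real.norm_eq_abs,
          Real.norm_eq_abs]
        split_ifs with hij
        · subst hij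
          rw [sub_self, hαabs]
          have : 0 ≤ 1 / (M : ℝ) * (1 / M * δ) := by positivity
          nlinarith
        · rw [add_zero, mul_assoc]
          have h3 := hz2 i (Finset.mem_range.1 hi) j (Finset.mem_range.1 hj) (Ne.symm hij)
          rw [hZdef] at h3
          simp only [Set.mem_ofPred_eq, not_not] at h3
          have h4 : |z i - z j| < r := by
            have h5 := hdist i (Finset.mem_range.1 hi) j (Finset.mem_range.1 hj)
            have h6 : κ ≤ r / 2 := (min_le_right _ _).trans (min_le_right _ _)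
            linarith
          have h7 := h3 h4
          gcongr
      refine (Finset.sum_le_sum h2).trans ?_
      rw [Finset.sum_add_distrib, ← Finset.mul_sum, ← Finset.sum_mul, hαabssum,
        Finset.sum_ite_eq', if_pos hi]
    refine (norm_sum_le _ _).trans ((Finset.sum_le_sum h1).trans ?_)
    rw [Finset.sum_add_distrib, ← Finset.sum_mul, hαabssum, Finset.sum_const, Finset.card_range,
      nsmul_eq_mul]
    push_cast
    have : (2 * (M : ℝ)) * (1 / M * (1 / M * ‖Q 0 - c‖)) = 2 / M * ‖Q 0 - c‖ := by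
      field_simp
    rw [this]
    linarith
  -- estimate of `D`
  set D := ∑ i ∈ Finset.range (2 * M), (α i : ℂ) * Q (z i) with hD
  have hDn : ‖D - (a - b)‖ ≤ η / 2 := by
    have hsplit : D - (a - b) = ∑ i ∈ Finset.range (2 * M),
        (α i : ℂ) * (Q (z i) - if i < M then a else b) := by
      have e : ∑ i ∈ Finset.range (2 * M), (α i : ℂ) * (if i < M then a else b) = a - b := by
        rw [two_mul, Finset.sum_range_add]
        have e1 : ∑ i ∈ Finset.range M, (α i : ℂ) * (if i < M then a else b) =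
            ∑ i ∈ Finset.range M, (1 / M : ℂ) * a :=
          Finset.sum_congr rfl fun i hi => by
            simp only [hα]
            rw [if_pos (Finset.mem_range.1 hi), if_pos (Finset.mem_range.1 hi)]
            push_cast; ring
        have e2 : ∑ i ∈ Finset.range M, (α (M + i) : ℂ) * (if M + i < M then a else b) =
            ∑ i ∈ Finset.range M, (-(1 / M) : ℂ) * b :=
          Finset.sum_congr rfl fun i _ => by
            simp only [hα]
            rw [if_neg (by omega), if_neg (by omega)]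
            push_cast; ring
        rw [e1, e2]
        simp only [Finset.sum_const, Finset.card_range, nsmul_eq_mul]
        have : (M : ℂ) ≠ 0 := by exact_mod_cast hM0.ne'
        field_simp
        ring
      rw [hD, ← e, ← Finset.sum_sub_distrib]
      exact Finset.sum_congr rfl fun i _ => by ring
    rw [hsplit]
    refine (norm_sum_le _ _).trans ?_
    have h1 : ∀ i ∈ Finset.range (2 * M), ‖(α i : ℂ) * (Q (z i) - if i < M then a else b)‖ ≤
        |α i| * (η / 4) := by
      intro i hi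
      rw [norm_mul, Complex.norm_real, Real.norm_eq_abs]
      have h2 := hz1 i (Finset.mem_range.1 hi)
      gcongr
      split_ifs at h2 ⊢ with h
      · exact h2.2.le
      · exact h2.2.le
    refine (Finset.sum_le_sum h1).trans ?_
    rw [← Finset.sum_mul, hαabssum]
    linarith
  have hDlow : η / 2 ≤ ‖D‖ := by
    have h1 : ‖a - b‖ ≤ ‖D‖ + ‖D - (a - b)‖ := by
      have : a - b = D - (D - (a - b)) := by ring
      calc ‖a - b‖ = ‖D - (D - (a - b))‖ := by rw [← this]
        _ ≤ ‖D‖ + ‖D - (a - b)‖ := norm_sub_le _ _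
    linarith
  -- contradiction
  have h1 : η ^ 2 / 4 ≤ q * (4 * δ + 2 / M * ‖Q 0 - c‖) := by
    have h2 : W.re ≤ 4 * δ + 2 / M * ‖Q 0 - c‖ := (Complex.re_le_norm W).trans hWn
    calc η ^ 2 / 4 = (η / 2) ^ 2 := by ring
      _ ≤ ‖D‖ ^ 2 := by gcongr
      _ ≤ q * W.re := hkey
      _ ≤ _ := by gcongr
  have h2 : q * (4 * δ) ≤ η ^ 2 / 16 := by
    rw [hδ]
    have : q * (4 * (η ^ 2 / (64 * (q + 1)))) = η ^ 2 / 16 * (q / (q + 1)) := by
      field_simp
      ring
    rw [this]
    have h3 : q / (q + 1) ≤ 1 := by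
      rw [div_le_one (by linarith)]; linarith
    have h4 : 0 ≤ η ^ 2 / 16 := by positivity
    nlinarith
  have h3 : q * (2 / M * ‖Q 0 - c‖) ≤ η ^ 2 / 16 := by
    rw [div_lt_iff₀ (by positivity)] at hM
    have h4 : q * (2 / M * ‖Q 0 - c‖) = (2 * q * ‖Q 0 - c‖) / M := by ring
    rw [h4, div_le_iff₀ hMR]
    have h5 : 0 ≤ ‖Q 0 - c‖ := norm_nonneg _
    have h6 : 0 ≤ q * ‖Q 0 - c‖ := mul_nonneg hq0 h5
    nlinarith
  have h4 : 0 < η ^ 2 := by positivity
  nlinarith

theorem exists_limit {Ω : Set ℝ} {Q : ℝ → ℂ} (hg : PosF Ω Q) (hΩo : IsOpen Ω)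
    (h0 : (0 : ℝ) ∈ Ω) (hΩ : ∀ x ∈ Ω, -x ∈ Ω) (hE : EssLim Q) {x₀ : ℝ} (hx₀ : x₀ ∈ Ω) :
    ∃ a, Tendsto Q (𝓝 x₀ ⊓ ae (volume : Measure ℝ)) (𝓝 a) := by
  have hK : IsCompact (Metric.closedBall (0 : ℂ) (Q 0).re) := isCompact_closedBall _ _
  have hmem : Metric.closedBall (0 : ℂ) (Q 0).re ∈ map Q (𝓝 x₀ ⊓ ae (volume : Measure ℝ)) := by
    rw [mem_map]
    refine Filter.mem_inf_of_left (mem_of_superset (hΩo.mem_nhds hx₀) ?_)
    intro x hx
    rw [Set.mem_preimage, mem_closedBall_zero_iff]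
    exact hg.norm_le h0 hΩ hx
  obtain ⟨a, -, ha⟩ := hK.exists_clusterPt (le_principal_iff.2 hmem)
  refine ⟨a, ?_⟩
  refine hK.le_nhds_of_unique_clusterPt hmem ?_
  intro b _ hb
  exact cluster_unique hg hΩo h0 hΩ hE hx₀ hb ha

/-- a function with essential limits everywhere is a.e. equal to a continuous function -/
theorem ae_eq_continuous {Ω : Set ℝ} {Q : ℝ → ℂ}
    (hlim : ∀ x₀ ∈ Ω, ∃ a, Tendsto Q (𝓝 x₀ ⊓ ae (volume : Measure ℝ)) (𝓝 a)) :
    ∃ g : ℝ → ℂ, ContinuousOn g Ω ∧ ∀ᵐ x : ℝ, x ∈ Ω → Q x = g x := by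
  classical
  let g : ℝ → ℂ := fun x => if hx : x ∈ Ω then (hlim x hx).choose else 0
  have hg : ∀ x ∈ Ω, Tendsto Q (𝓝 x ⊓ ae (volume : Measure ℝ)) (𝓝 (g x)) := by
    intro x hx
    simp only [g, dif_pos hx]
    exact (hlim x hx).choose_spec
  have hloc : ∀ x₀ ∈ Ω, ∀ ε > 0, ∃ U : Set ℝ, IsOpen U ∧ x₀ ∈ U ∧
      (∀ᵐ x : ℝ, x ∈ U → ‖Q x - g x₀‖ ≤ ε) ∧ ∀ x ∈ U, x ∈ Ω → ‖g x - g x₀‖ ≤ ε := by
    intro x₀ hx₀ ε hε
    have h1 := hg x₀ hx₀ (Metric.closedBall_mem_nhds (g x₀) hε)
    rw [mem_map, Filter.mem_inf_iff] at h1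
    obtain ⟨t1, ht1, t2, ht2, h12⟩ := h1
    obtain ⟨U, hU1, hU2, hU3⟩ := mem_nhds_iff.1 ht1
    have h2 : ∀ x ∈ U, x ∈ t2 → ‖Q x - g x₀‖ ≤ ε := by
      intro x hx hx2
      have : x ∈ Q ⁻¹' Metric.closedBall (g x₀) ε := by
        rw [h12]; exact ⟨hU1 hx, hx2⟩
      rwa [Set.mem_preimage, mem_closedBall_iff_norm] at this
    refine ⟨U, hU2, hU3, ?_, ?_⟩
    · filter_upwards [ht2] with x hx hxU
      exact h2 x hxU hx
    · intro x hxU hxΩ
      have h3 : ∀ᶠ y in 𝓝 x ⊓ ae (volume : Measure ℝ), Q y ∈ Metric.closedBall (g x₀) ε := by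
        refine mem_of_superset (Filter.inter_mem_inf (hU2.mem_nhds hxU) ht2) ?_
        rintro y ⟨hy1, hy2⟩
        simp only [Set.mem_ofPred_eq, mem_closedBall_iff_norm]
        exact h2 y hy1 hy2
      have h4 := Metric.isClosed_closedBall.mem_of_tendsto (hg x hxΩ) h3
      rwa [mem_closedBall_iff_norm] at h4
  refine ⟨g, ?_, ?_⟩
  · intro x₀ hx₀
    rw [ContinuousWithinAt, Metric.tendsto_nhds]
    intro ε hε
    obtain ⟨U, hU1, hU2, -, hU4⟩ := hloc x₀ hx₀ (ε / 2) (by linarith)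
    filter_upwards [mem_nhdsWithin_of_mem_nhds (hU1.mem_nhds hU2), self_mem_nhdsWithin]
      with x hx hxΩ
    rw [dist_eq_norm]
    have := hU4 x hx hxΩ
    linarith
  · have hn : ∀ n : ℕ, ∀ᵐ x : ℝ, x ∈ Ω → ‖Q x - g x‖ ≤ 1 / (n + 1) := by
      intro n
      have h1 : volume {x : ℝ | x ∈ Ω ∧ ¬ ‖Q x - g x‖ ≤ 1 / (n + 1)} = 0 := by
        apply measure_null_of_locally_null
        rintro x₀ ⟨hx₀, -⟩
        have hpos : (0 : ℝ) < 1 / (n + 1) / 2 := by positivity
        obtain ⟨U, hU1, hU2, hU3, hU4⟩ := hloc x₀ hx₀ _ hpos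
        refine ⟨{x : ℝ | x ∈ Ω ∧ ¬ ‖Q x - g x‖ ≤ 1 / (n + 1)} ∩ U, ?_, ?_⟩
        · exact inter_mem self_mem_nhdsWithin (mem_nhdsWithin_of_mem_nhds (hU1.mem_nhds hU2))
        · refine measure_mono_null ?_ hU3
          rintro x ⟨⟨hxΩ, hx1⟩, hxU⟩ hx2
          apply hx1
          have h3 := hx2 hxU
          have h4 := hU4 x hxU hxΩ
          calc ‖Q x - g x‖ = ‖(Q x - g x₀) - (g x - g x₀)‖ := by congr 1; ring
            _ ≤ ‖Q x - g x₀‖ + ‖g x - g x₀‖ := norm_sub_le _ _
            _ ≤ 1 / (n + 1) / 2 + 1 / (n + 1) / 2 := add_le_add h3 h4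
            _ = 1 / (n + 1) := by ring
      rw [ae_iff]
      convert h1 using 2
      ext x
      simp only [Set.mem_ofPred_eq, Classical.not_imp]
    have hall := ae_all_iff.2 hn
    filter_upwards [hall] with x hx hxΩ
    have h1 : ‖Q x - g x‖ ≤ 0 := by
      refine ge_of_tendsto' (tendsto_one_div_add_atTop_nhds_zero_nat (𝕜 := ℝ)) fun n => ?_
      exact hx n hxΩ
    exact sub_eq_zero.1 (norm_le_zero_iff.1 h1)

end Pool.Agent.TH175.Minimal
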