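import Mathlib
import Pool.Agent.TH175.Minimal.Limit

/-!
# Minimal decompositions: the sum of the two parts has an essential limit at `0`
-/

set_option autoImplicit false

open MeasureTheory Filter Topology
open scoped ComplexOrder ComplexConjugate

namespace Pool.Agent.TH175.Minimal

open Pool.Agent.TH603.Chi (ex HB norm_ex exists_phase)

/-- translation of a family of coefficients -/
noncomputable def shift (l : ℝ) (q : ℝ →₀ ℂ) : ℝ →₀ ℂ :=
  ∑ x ∈ q.support, Finsupp.single (x + l) (q x)

theorem lin_shift (g : ℝ → ℂ) (l : ℝ) (q : ℝ →₀ ℂ) :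
    Finsupp.linearCombination ℂ g (shift l q) =
      Finsupp.linearCombination ℂ (fun x => g (x + l)) q := by
  unfold shift
  rw [map_sum]
  simp only [Finsupp.linearCombination_single]
  rw [Finsupp.linearCombination_apply, Finsupp.sum]

theorem lin_shift_ex (t l : ℝ) (q : ℝ →₀ ℂ) :
    Finsupp.linearCombination ℂ (ex t) (shift l q) =
      ex t l * Finsupp.linearCombination ℂ (ex t) q := by
  rw [lin_shift]
  simp only [Finsupp.linearCombination_apply, Finsupp.sum, smul_eq_mul, ex_add]
  rw [Finset.mul_sum]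
  exact Finset.sum_congr rfl fun i _ => by ring

theorem shift_mem {Ω : Set ℝ} {l : ℝ} {q : ℝ →₀ ℂ} (h : ∀ x ∈ q.support, x + l ∈ Ω) :
    shift l q ∈ Finsupp.supported ℂ ℂ Ω :=
  Submodule.sum_mem _ fun x hx => Finsupp.single_mem_supported ℂ _ (h x hx)

/-- For a nonnegative polynomial `q` the functional of `q e_l` is at most that of `q`. -/
theorem PosF.shift_le {Ω : Set ℝ} {g : ℝ → ℂ} (hg : PosF Ω g) {q : ℝ →₀ ℂ}
    (hq : q ∈ Finsupp.supported ℂ ℂ Ω) (hq0 : ∀ t, 0 ≤ Finsupp.linearCombination ℂ (ex t) q)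
    {l : ℝ} (h1 : ∀ x ∈ q.support, x + l ∈ Ω) (h2 : ∀ x ∈ q.support, x + -l ∈ Ω) :
    ‖Finsupp.linearCombination ℂ (fun x => g (x + l)) q‖ ≤
      (Finsupp.linearCombination ℂ g q).re := by
  set X := Finsupp.linearCombination ℂ (fun x => g (x + l)) q with hX
  set Y := Finsupp.linearCombination ℂ (fun x => g (x + -l)) q with hY
  have hA : 0 ≤ Finsupp.linearCombination ℂ g q := hg q hq hq0
  set A := Finsupp.linearCombination ℂ g q with hAdef
  have hmain : ∀ θ : ℂ, ‖θ‖ = 1 → 0 ≤ A - (θ * X + conj θ * Y) / 2 := by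
    intro θ hθ
    have h := hg (q - ((θ / 2) • shift l q + (conj θ / 2) • shift (-l) q)) ?_ ?_
    · rw [map_sub, map_add, map_smul, map_smul, lin_shift, lin_shift, smul_eq_mul,
        smul_eq_mul] at h
      have e : A - (θ * X + conj θ * Y) / 2 = A - (θ / 2 * X + conj θ / 2 * Y) := by ring
      rw [e]
      exact h
    · exact Submodule.sub_mem _ hq (Submodule.add_mem _
        (Submodule.smul_mem _ _ (shift_mem h1)) (Submodule.smul_mem _ _ (shift_mem h2)))
    · intro t
      rw [map_sub, map_add, map_smul, map_smul, lin_shift_ex, lin_shift_ex, smul_eq_mul,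
        smul_eq_mul, ex_neg]
      have e : Finsupp.linearCombination ℂ (ex t) q -
          (θ / 2 * (ex t l * Finsupp.linearCombination ℂ (ex t) q) +
            conj θ / 2 * (conj (ex t l) * Finsupp.linearCombination ℂ (ex t) q)) =
          Finsupp.linearCombination ℂ (ex t) q * (((1 - (θ * ex t l).re : ℝ)) : ℂ) := by
        have h3 : (((θ * ex t l).re : ℝ) : ℂ) = (θ * ex t l + conj (θ * ex t l)) / 2 := by
          rw [Complex.add_conj]; push_cast; ring
        push_cast
        rw [h3, map_mul]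
        ring
      rw [e]
      refine mul_nonneg (hq0 t) ?_
      have h4 : (θ * ex t l).re ≤ 1 := by
        refine (Complex.re_le_norm _).trans ?_
        rw [norm_mul, hθ, norm_ex, one_mul]
      exact_mod_cast sub_nonneg.2 h4
  rw [Complex.nonneg_iff] at hA
  have hYX : Y = conj X := by
    have h3 := hmain 1 (by simp)
    have h4 := hmain Complex.I (by simp)
    rw [Complex.nonneg_iff] at h3 h4
    have h5 := h3.2
    have h6 := h4.2
    simp only [map_one, one_mul, Complex.sub_im, Complex.div_ofNat_im, Complex.add_im,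
      Complex.mul_im, Complex.conj_I, Complex.neg_im, Complex.I_re,
      Complex.I_im, zero_mul, zero_add, neg_mul] at h5 h6
    rw [← hA.2] at h5 h6
    apply Complex.ext
    · rw [Complex.conj_re]; linarith
    · rw [Complex.conj_im]; linarith
  obtain ⟨θ, hθ1, hθ2⟩ := exists_phase X
  have h3 := hmain θ hθ1
  rw [hYX, ← map_mul, hθ2, Complex.conj_ofReal, Complex.nonneg_iff] at h3
  have h4 := h3.1
  simp only [Complex.sub_re, Complex.div_ofNat_re, Complex.add_re, Complex.ofReal_re] at h4
  linarith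

/-- the product of two polynomials -/
noncomputable def prod (p c : ℝ →₀ ℂ) : ℝ →₀ ℂ := ∑ l ∈ c.support, c l • shift l p

theorem lin_prod (F : ℝ → ℂ) (p c : ℝ →₀ ℂ) :
    Finsupp.linearCombination ℂ F (prod p c) =
      Finsupp.linearCombination ℂ
        (fun l => Finsupp.linearCombination ℂ (fun x => F (x + l)) p) c := by
  unfold prod
  rw [map_sum, Finsupp.linearCombination_apply, Finsupp.sum]
  simp only [map_smul, lin_shift]

theorem lin_prod_ex (t : ℝ) (p c : ℝ →₀ ℂ) :
    Finsupp.linearCombination ℂ (ex t) (prod p c) =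
      Finsupp.linearCombination ℂ (ex t) p * Finsupp.linearCombination ℂ (ex t) c := by
  unfold prod
  rw [map_sum]
  simp only [map_smul, lin_shift_ex, smul_eq_mul]
  have : Finsupp.linearCombination ℂ (ex t) c = ∑ l ∈ c.support, c l * ex t l := by
    rw [Finsupp.linearCombination_apply, Finsupp.sum]
    rfl
  rw [this, Finset.mul_sum]
  exact Finset.sum_congr rfl fun i _ => by ring

theorem measurable_shift {F : ℝ → ℂ} (hF : AEMeasurable F volume) (k : ℝ) :
    AEMeasurable (fun l => F (k + l)) volume :=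
  hF.comp_quasiMeasurePreserving (measurePreserving_add_left volume k).quasiMeasurePreserving

/-- **Essential limit.** -/
theorem essLim {Ω : Set ℝ} (hΩo : IsOpen Ω) (h0 : (0 : ℝ) ∈ Ω)
    {Fp Fm F : ℝ → ℂ} (hFpm : ∀ x, F x = Fp x - Fm x) (hp : PosF Ω Fp) (hm : PosF Ω Fm)
    {C : ℝ} (hC : HB Ω F C) (hFm : AEMeasurable F volume) (hFb : ∀ x, ‖F x‖ ≤ C)
    (hmin : ∀ ε > 0, ∃ p ∈ Finsupp.supported ℂ ℂ Ω,
      (∀ t, 0 ≤ 1 - Finsupp.linearCombination ℂ (ex t) p) ∧
      (∀ t, 0 ≤ 1 + Finsupp.linearCombination ℂ (ex t) p) ∧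
      (Fp 0).re + (Fm 0).re - ε ≤ (Finsupp.linearCombination ℂ F p).re) :
    EssLim (fun x => Fp x + Fm x) := by
  classical
  intro ε hε
  obtain ⟨p, hpΩ, hp1, hp2, hp3⟩ := hmin (ε / 2) (by linarith)
  -- the room
  have hroom : ∃ r > 0, ∀ l : ℝ, |l| < r → ∀ k ∈ insert 0 p.support, k + l ∈ Ω := by
    have h1 : ∀ k ∈ insert 0 p.support, ∀ᶠ l in 𝓝 (0 : ℝ), k + l ∈ Ω := by
      intro k hk
      have hkΩ : k ∈ Ω := by
        rcases Finset.mem_insert.1 hk with h | h
        · rw [h]; exact h0
        · exact (Finsupp.mem_supported ℂ p).1 hpΩ h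
      have h2 : Tendsto (fun l : ℝ => k + l) (𝓝 0) (𝓝 (k + 0)) := tendsto_const_nhds.add tendsto_id
      rw [add_zero] at h2
      exact h2 (hΩo.mem_nhds hkΩ)
    have h2 := (Filter.eventually_all_finset (insert 0 p.support)).2 h1
    rw [Metric.eventually_nhds_iff] at h2
    obtain ⟨r, hr, h3⟩ := h2
    refine ⟨r, hr, fun l hl k hk => h3 (by rw [Real.dist_eq, sub_zero]; exact hl) k hk⟩
  obtain ⟨r, hr0, hroom⟩ := hroom
  -- the measurable approximation
  set G : ℝ → ℂ := fun l => Finsupp.linearCombination ℂ (fun x => F (x + l)) p with hG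
  have hGsum : ∀ l, G l = ∑ x ∈ p.support, p x * F (x + l) := by
    intro l
    simp only [hG]
    rw [Finsupp.linearCombination_apply, Finsupp.sum]
    rfl
  have hQG : ∀ l, |l| < r → ‖(Fp l + Fm l) - G l‖ ≤ ε / 2 := by
    intro l hl
    have hl' : |(-l)| < r := by rwa [abs_neg]
    have hs1 : ∀ x ∈ (Finsupp.single 0 1 - p).support, ∀ y : ℝ, |y| < r → x + y ∈ Ω := by
      intro x hx y hy
      apply hroom y hy x
      rw [Finset.mem_insert]
      by_contra hcon
      push Not at hcon
      rw [Finsupp.mem_support_iff, Finsupp.sub_apply, Finsupp.single_apply,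
        if_neg (Ne.symm hcon.1), Finsupp.notMem_support_iff.1 hcon.2, sub_zero] at hx
      exact hx rfl
    have hs2 : ∀ x ∈ (Finsupp.single 0 1 + p).support, ∀ y : ℝ, |y| < r → x + y ∈ Ω := by
      intro x hx y hy
      apply hroom y hy x
      rw [Finset.mem_insert]
      by_contra hcon
      push Not at hcon
      rw [Finsupp.mem_support_iff, Finsupp.add_apply, Finsupp.single_apply,
        if_neg (Ne.symm hcon.1), Finsupp.notMem_support_iff.1 hcon.2, add_zero] at hx
      exact hx rfl
    have h1 := hp.shift_le (q := Finsupp.single 0 1 - p) (l := l)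
      (Submodule.sub_mem _ (Finsupp.single_mem_supported ℂ _ h0) hpΩ)
      (by intro t; rw [map_sub, Finsupp.linearCombination_single, ex_zero, one_smul]; exact hp1 t)
      (fun x hx => hs1 x hx l hl) (fun x hx => hs1 x hx (-l) hl')
    have h2 := hm.shift_le (q := Finsupp.single 0 1 + p) (l := l)
      (Submodule.add_mem _ (Finsupp.single_mem_supported ℂ _ h0) hpΩ)
      (by intro t; rw [map_add, Finsupp.linearCombination_single, ex_zero, one_smul]; exact hp2 t)
      (fun x hx => hs2 x hx l hl) (fun x hx => hs2 x hx (-l) hl')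
    rw [map_sub, map_sub, Finsupp.linearCombination_single, Finsupp.linearCombination_single,
      one_smul, one_smul, zero_add, Complex.sub_re] at h1
    rw [map_add, map_add, Finsupp.linearCombination_single, Finsupp.linearCombination_single,
      one_smul, one_smul, zero_add, Complex.add_re] at h2
    have hlinF : ∀ q : ℝ →₀ ℂ, Finsupp.linearCombination ℂ F q =
        Finsupp.linearCombination ℂ Fp q - Finsupp.linearCombination ℂ Fm q := by
      intro q
      simp only [Finsupp.linearCombination_apply, Finsupp.sum, smul_eq_mul, hFpm, mul_sub,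
        Finset.sum_sub_distrib]
    have hGl : G l = Finsupp.linearCombination ℂ (fun x => Fp (x + l)) p -
        Finsupp.linearCombination ℂ (fun x => Fm (x + l)) p := by
      simp only [hG, Finsupp.linearCombination_apply, Finsupp.sum, smul_eq_mul, hFpm, mul_sub,
        Finset.sum_sub_distrib]
    have e : (Fp l + Fm l) - G l = (Fp l - Finsupp.linearCombination ℂ (fun x => Fp (x + l)) p) +
        (Fm l + Finsupp.linearCombination ℂ (fun x => Fm (x + l)) p) := by
      rw [hGl]; ring
    rw [e]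
    refine (norm_add_le _ _).trans ((add_le_add h1 h2).trans ?_)
    rw [hlinF, Complex.sub_re] at hp3
    linarith
  -- `G` is a bounded functional near `0`
  have hGHB : HB (Metric.ball 0 r) G C := by
    intro c hc M hM
    have h1 : prod p c ∈ Finsupp.supported ℂ ℂ Ω := by
      refine Submodule.sum_mem _ fun l hl => Submodule.smul_mem _ _ (shift_mem fun x hx => ?_)
      have hl' : l ∈ Metric.ball (0 : ℝ) r := (Finsupp.mem_supported ℂ c).1 hc hl
      rw [Metric.mem_ball, Real.dist_eq, sub_zero] at hl'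
      exact hroom l hl' x (Finset.mem_insert_of_mem hx)
    have h2 := hC (prod p c) h1 M (by
      intro t
      rw [lin_prod_ex, norm_mul]
      have h3 : ‖Finsupp.linearCombination ℂ (ex t) p‖ ≤ 1 := by
        have h4 := hp1 t
        have h5 := hp2 t
        rw [Complex.nonneg_iff] at h4 h5
        have him : (Finsupp.linearCombination ℂ (ex t) p).im = 0 := by
          have := h5.2
          simp at this
          exact this.symm
        have h6 : Finsupp.linearCombination ℂ (ex t) p =
            (((Finsupp.linearCombination ℂ (ex t) p).re : ℝ) : ℂ) := by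
          apply Complex.ext
          · simp
          · simp [him]
        rw [h6, Complex.norm_real, Real.norm_eq_abs, abs_le]
        have h7 := h4.1
        have h8 := h5.1
        simp only [Complex.sub_re, Complex.add_re, Complex.one_re] at h7 h8
        constructor <;> linarith
      have h9 := hM t
      calc ‖Finsupp.linearCombination ℂ (ex t) p‖ * ‖Finsupp.linearCombination ℂ (ex t) c‖
          ≤ 1 * M := mul_le_mul h3 h9 (norm_nonneg _) zero_le_one
        _ = M := one_mul M)
    rw [lin_prod] at h2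
    exact h2
  have hGmeas : AEMeasurable G volume := by
    have e : G = fun l => ∑ x ∈ p.support, p x * F (x + l) := funext hGsum
    rw [e]
    exact Finset.aemeasurable_fun_sum _ fun x _ => (measurable_shift hFm x).const_mul _
  have hGbound : ∀ l, ‖G l‖ ≤ ∑ x ∈ p.support, ‖p x‖ * C := by
    intro l
    rw [hGsum]
    refine (norm_sum_le _ _).trans (Finset.sum_le_sum fun x _ => ?_)
    rw [norm_mul]
    exact mul_le_mul_of_nonneg_left (hFb _) (norm_nonneg _)
  have hGint : LocallyIntegrable G volume := by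
    refine (locallyIntegrable_const (∑ x ∈ p.support, ‖p x‖ * C)).mono
      hGmeas.aestronglyMeasurable (Filter.Eventually.of_forall fun l => ?_)
    exact (hGbound l).trans (le_abs_self _)
  obtain ⟨G', hG1, -, hG3⟩ := Pool.Agent.TH603.Chi.main Metric.isOpen_ball hGHB hGint
  have hcont : ContinuousAt G' 0 :=
    hG1.continuousAt (Metric.isOpen_ball.mem_nhds (Metric.mem_ball_self hr0))
  rw [Metric.continuousAt_iff] at hcont
  obtain ⟨r', hr'0, hr'⟩ := hcont (ε / 2) (by linarith)
  refine ⟨min r r', lt_min hr0 hr'0, G' 0, ?_⟩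
  filter_upwards [hG3] with l hl hlr
  have hl1 : |l| < r := hlr.trans_le (min_le_left _ _)
  have hl2 : |l| < r' := hlr.trans_le (min_le_right _ _)
  have h1 := hl (by rw [Metric.mem_ball, Real.dist_eq, sub_zero]; exact hl1)
  have h2 := hr' (x := l) (by rw [Real.dist_eq, sub_zero]; exact hl2)
  rw [← h1, dist_eq_norm] at h2
  have h3 := hQG l hl1
  calc ‖(Fp l + Fm l) - G' 0‖ = ‖((Fp l + Fm l) - G l) + (G l - G' 0)‖ := by congr 1; ring
    _ ≤ ‖(Fp l + Fm l) - G l‖ + ‖G l - G' 0‖ := norm_add_le _ _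
    _ ≤ ε := by linarith

/-- Both parts of a minimal decomposition agree almost everywhere with continuous functions. -/
theorem main {Ω : Set ℝ} (hΩo : IsOpen Ω) (h0 : (0 : ℝ) ∈ Ω) (hΩ : ∀ x ∈ Ω, -x ∈ Ω)
    {Fp Fm F : ℝ → ℂ} (hFpm : ∀ x, F x = Fp x - Fm x) (hp : PosF Ω Fp) (hm : PosF Ω Fm)
    {C : ℝ} (hC : HB Ω F C) (hFm : AEMeasurable F volume) (hFb : ∀ x, ‖F x‖ ≤ C)
    (hmin : ∀ ε > 0, ∃ p ∈ Finsupp.supported ℂ ℂ Ω,
      (∀ t, 0 ≤ 1 - Finsupp.linearCombination ℂ (ex t) p) ∧
      (∀ t, 0 ≤ 1 + Finsupp.linearCombination ℂ (ex t) p) ∧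
      (Fp 0).re + (Fm 0).re - ε ≤ (Finsupp.linearCombination ℂ F p).re) :
    ∃ g : ℝ → ℂ, ContinuousOn g Ω ∧ ∀ᵐ x : ℝ, x ∈ Ω → Fp x + Fm x = g x := by
  have hE := essLim hΩo h0 hFpm hp hm hC hFm hFb hmin
  exact ae_eq_continuous fun x₀ hx₀ =>
    exists_limit (hp.add hm) hΩo h0 hΩ hE hx₀

/-- conjugate reflection of a family of coefficients -/
noncomputable def star (p : ℝ →₀ ℂ) : ℝ →₀ ℂ :=
  ∑ x ∈ p.support, Finsupp.single (-x) (conj (p x))

theorem lin_star {F : ℝ → ℂ} {p : ℝ →₀ ℂ} (h : ∀ x ∈ p.support, F (-x) = conj (F x)) :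
    Finsupp.linearCombination ℂ F (star p) = conj (Finsupp.linearCombination ℂ F p) := by
  unfold star
  rw [map_sum, Finsupp.linearCombination_apply, Finsupp.sum, map_sum]
  refine Finset.sum_congr rfl fun x hx => ?_
  rw [Finsupp.linearCombination_single, smul_eq_mul, smul_eq_mul, map_mul, h x hx]

/-- From a complex almost extremal polynomial to a real one. -/
theorem real_extremal {Ω : Set ℝ} (hΩ : ∀ x ∈ Ω, -x ∈ Ω) {F : ℝ → ℂ}
    (hF : ∀ x ∈ Ω, F (-x) = conj (F x)) {p : ℝ →₀ ℂ} (hp : p ∈ Finsupp.supported ℂ ℂ Ω)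
    (hp1 : ∀ t, ‖Finsupp.linearCombination ℂ (ex t) p‖ ≤ 1) :
    ∃ u ∈ Finsupp.supported ℂ ℂ Ω,
      (∀ t, 0 ≤ 1 - Finsupp.linearCombination ℂ (ex t) u) ∧
      (∀ t, 0 ≤ 1 + Finsupp.linearCombination ℂ (ex t) u) ∧
      (Finsupp.linearCombination ℂ F u).re = ‖Finsupp.linearCombination ℂ F p‖ := by
  obtain ⟨θ, hθ1, hθ2⟩ := exists_phase (Finsupp.linearCombination ℂ F p)
  have hsub : ∀ x ∈ (θ • p).support, x ∈ Ω := fun x hx =>
    (Finsupp.mem_supported ℂ p).1 hp (Finsupp.support_smul hx)
  have hval : ∀ t, Finsupp.linearCombination ℂ (ex t) ((1 / 2 : ℂ) • (θ • p + star (θ • p))) =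
      (((θ * Finsupp.linearCombination ℂ (ex t) p).re : ℝ) : ℂ) := by
    intro t
    rw [map_smul, map_add, lin_star (fun x _ => ex_neg t x), map_smul, smul_eq_mul, smul_eq_mul,
      Complex.add_conj]
    push_cast
    ring
  have hre : ∀ t, |(θ * Finsupp.linearCombination ℂ (ex t) p).re| ≤ 1 := by
    intro t
    refine (Complex.abs_re_le_norm _).trans ?_
    rw [norm_mul, hθ1, one_mul]
    exact hp1 t
  refine ⟨(1 / 2 : ℂ) • (θ • p + star (θ • p)), ?_, ?_, ?_, ?_⟩
  · refine Submodule.smul_mem _ _ (Submodule.add_mem _ (Submodule.smul_mem _ _ hp) ?_)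
    exact Submodule.sum_mem _ fun x hx => Finsupp.single_mem_supported ℂ _ (hΩ x (hsub x hx))
  · intro t
    rw [hval t]
    have := (abs_le.1 (hre t)).2
    have h2 : (0 : ℝ) ≤ 1 - (θ * Finsupp.linearCombination ℂ (ex t) p).re := by linarith
    exact_mod_cast h2
  · intro t
    rw [hval t]
    have := (abs_le.1 (hre t)).1
    have h2 : (0 : ℝ) ≤ 1 + (θ * Finsupp.linearCombination ℂ (ex t) p).re := by linarith
    exact_mod_cast h2
  · rw [map_smul, map_add, lin_star (fun x hx => hF x (hsub x hx)), map_smul, smul_eq_mul,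
      smul_eq_mul, hθ2, Complex.conj_ofReal]
    simp
    ring

end Pool.Agent.TH175.Minimal
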